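import Mathlib

/-!
# UNI-LIFT: abstract version
-/

set_option autoImplicit false
set_option maxSynthPendingDepth 3

open scoped ContDiff Topology
open Filter Set MeasureTheory

namespace Pool.Agent.W544.UniLift

/-- the hypotheses of the lifting theorem in abstract normed spaces; `ι` is the inclusion of the
space of directions, `σ` acts on the directions, `s` on the base -/
structure AHyp {P V X : Type} [NormedAddCommGroup P] [NormedSpace ℝ P]
    [NormedAddCommGroup V] [NormedSpace ℝ V] [NormedAddCommGroup X]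
    [NormedSpace ℝ X] (ι : V →L[ℝ] P) (z : V →L[ℝ] X) (τ : ℝ → X →L[ℝ] X) (σ : ℝ → V →L[ℝ] V)
    (s : ℝ → P →L[ℝ] P)
    (D : Set P) (N : P → X) (A : P → (X →L[ℝ] X)) : Prop where
  isOpen : IsOpen D
  maps : ∀ p ∈ D, ∀ a : ℝ, 0 ≤ a → s a p ∈ D
  τ0 : ∀ f, τ 0 f = f
  s0 : ∀ p, s 0 p = p
  sι : ∀ a v, s a (ι v) = ι (σ a v)
  zσ : ∀ a v, z (σ a v) = τ a (z v)
  hN : ContDiffOn ℝ ∞ N D
  hA : ContDiffOn ℝ ∞ A D
  hd : ∀ p ∈ D, ∀ g : V, HasDerivAt (fun t : ℝ => N (p + t • ι g)) (A p (z g)) 0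
  hNe : ∀ p ∈ D, ∀ a : ℝ, 0 ≤ a → N (s a p) = τ a (N p)
  hAe : ∀ p ∈ D, ∀ a : ℝ, 0 ≤ a → ∀ g : X, A (s a p) (τ a g) = τ a (A p g)

section

variable {P V X : Type} [NormedAddCommGroup P] [NormedSpace ℝ P]
    [NormedAddCommGroup V] [NormedSpace ℝ V] [NormedAddCommGroup X]
    [NormedSpace ℝ X] {ι : V →L[ℝ] P} {z : V →L[ℝ] X} {τ : ℝ → X →L[ℝ] X} {σ : ℝ → V →L[ℝ] V}
    {s : ℝ → P →L[ℝ] P} {D : Set P} {N : P → X} {A : P → (X →L[ℝ] X)}

theorem AHyp.contN (H : AHyp ι z τ σ s D N A) {p : P} (hp : p ∈ D) :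
    ContDiffAt ℝ ∞ N p := H.hN.contDiffAt (H.isOpen.mem_nhds hp)

theorem AHyp.derN (H : AHyp ι z τ σ s D N A) {p : P} (hp : p ∈ D) :
    HasFDerivAt N (fderiv ℝ N p) p :=
  ((H.contN hp).differentiableAt (by simp)).hasFDerivAt

theorem AHyp.derA (H : AHyp ι z τ σ s D N A) {p : P} (hp : p ∈ D) :
    HasFDerivAt A (fderiv ℝ A p) p :=
  ((H.hA.contDiffAt (H.isOpen.mem_nhds hp)).differentiableAt (by simp)).hasFDerivAt

theorem AHyp.contA' (H : AHyp ι z τ σ s D N A) : ContDiffOn ℝ ∞ (fderiv ℝ A) D :=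
  H.hA.fderiv_of_isOpen H.isOpen (by simp)

theorem AHyp.contA'' (H : AHyp ι z τ σ s D N A) :
    ContDiffOn ℝ ∞ (fderiv ℝ (fderiv ℝ A)) D :=
  H.contA'.fderiv_of_isOpen H.isOpen (by simp)

theorem AHyp.derA' (H : AHyp ι z τ σ s D N A) {p : P} (hp : p ∈ D) :
    HasFDerivAt (fderiv ℝ A) (fderiv ℝ (fderiv ℝ A) p) p :=
  ((H.contA'.contDiffAt (H.isOpen.mem_nhds hp)).differentiableAt (by simp)).hasFDerivAt

theorem line_der (p k : P) : HasDerivAt (fun t : ℝ => p + t • k) k 0 := by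
  simpa using ((hasDerivAt_id (0 : ℝ)).smul_const k).const_add p

theorem AHyp.ev (H : AHyp ι z τ σ s D N A) {p : P} (hp : p ∈ D) (h : P) :
    ∀ᶠ t in 𝓝 (0 : ℝ), p + t • h ∈ D := by
  have h8 : Tendsto (fun t : ℝ => p + t • h) (𝓝 0) (𝓝 p) := by
    have := (line_der p h).continuousAt.tendsto
    simpa using this
  exact h8.eventually (H.isOpen.mem_nhds hp)

theorem AHyp.fderivN (H : AHyp ι z τ σ s D N A) {p : P} (hp : p ∈ D) (g : V) :
    fderiv ℝ N p (ι g) = A p (z g) := by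
  have h1 := H.hd p hp g
  have h2 : HasFDerivAt N (fderiv ℝ N p) (p + (0 : ℝ) • ι g) := by
    rw [zero_smul, add_zero]
    exact H.derN hp
  have h3 := h2.comp_hasDerivAt (0 : ℝ) (line_der p (ι g))
  exact h3.unique h1

theorem AHyp.symm (H : AHyp ι z τ σ s D N A) {p : P} (hp : p ∈ D) (h g : V) :
    fderiv ℝ A p (ι h) (z g) = fderiv ℝ A p (ι g) (z h) := by
  have key : ∀ h g : V, fderiv ℝ (fderiv ℝ N) p (ι h) (ι g) = fderiv ℝ A p (ι h) (z g) := by
    intro h g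
    have hN' : HasFDerivAt (fderiv ℝ N) (fderiv ℝ (fderiv ℝ N) p) p := by
      have h1 : ContDiffOn ℝ ∞ (fderiv ℝ N) D := H.hN.fderiv_of_isOpen H.isOpen (by simp)
      exact ((h1.contDiffAt (H.isOpen.mem_nhds hp)).differentiableAt (by simp)).hasFDerivAt
    have h3 : HasFDerivAt (fun q => fderiv ℝ N q (ι g))
        ((fderiv ℝ (fderiv ℝ N) p).flip (ι g)) p := by
      have := hN'.clm_apply (hasFDerivAt_const (ι g) p)
      simpa using this
    have h5 : HasFDerivAt (fun q => A q (z g)) ((fderiv ℝ A p).flip (z g)) p := by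
      have := (H.derA hp).clm_apply (hasFDerivAt_const (z g) p)
      simpa using this
    have h6 : HasFDerivAt (fun q => A q (z g)) ((fderiv ℝ (fderiv ℝ N) p).flip (ι g)) p := by
      refine h3.congr_of_eventuallyEq ?_
      filter_upwards [H.isOpen.mem_nhds hp] with q hq
      exact (H.fderivN hq g).symm
    have h9 := h6.unique h5
    have h10 := congrArg (fun L : P →L[ℝ] X => L (ι h)) h9
    simpa using h10
  have hs : IsSymmSndFDerivAt ℝ N p :=
    (H.contN hp).isSymmSndFDerivAt (by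
      simp only [minSmoothness_of_isRCLikeNormedField]
      exact WithTop.coe_le_coe.2 le_top)
  rw [← key, ← key]
  exact hs.eq _ _

theorem AHyp.equivA' (H : AHyp ι z τ σ s D N A) {p : P} (hp : p ∈ D) {a : ℝ}
    (ha : 0 ≤ a) (k : V) (g : X) :
    fderiv ℝ A (s a p) (ι (σ a k)) (τ a g) = τ a (fderiv ℝ A p (ι k) g) := by
  have h4 : HasFDerivAt (fun q => A (s a q)) ((fderiv ℝ A (s a p)).comp (s a)) p :=
    (H.derA (H.maps p hp a ha)).comp p (s a).hasFDerivAt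
  have h5 : HasFDerivAt (fun q => A (s a q) (τ a g))
      (((fderiv ℝ A (s a p)).comp (s a)).flip (τ a g)) p := by
    have := h4.clm_apply (hasFDerivAt_const (τ a g) p)
    simpa using this
  have h6 : HasFDerivAt (fun q => A q g) ((fderiv ℝ A p).flip g) p := by
    have := (H.derA hp).clm_apply (hasFDerivAt_const g p)
    simpa using this
  have h7 : HasFDerivAt (fun q => τ a (A q g)) ((τ a).comp ((fderiv ℝ A p).flip g)) p :=
    (τ a).hasFDerivAt.comp p h6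
  have h8 : HasFDerivAt (fun q => τ a (A q g))
      (((fderiv ℝ A (s a p)).comp (s a)).flip (τ a g)) p := by
    refine h5.congr_of_eventuallyEq ?_
    filter_upwards [H.isOpen.mem_nhds hp] with q hq
    exact (H.hAe q hq a ha g).symm
  have h9 := h8.unique h7
  have h10 := congrArg (fun L : P →L[ℝ] X => L (ι k)) h9
  simpa [H.sι] using h10

/-- the right derivative relation -/
def ARD (τ : ℝ → X →L[ℝ] X) (f f' : X) : Prop :=
  HasDerivWithinAt (fun h : ℝ => τ h f) (-f') (Ioi 0) 0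

theorem AHyp.rd0 (H : AHyp ι z τ σ s D N A) {p : P} {w : V} (hp : p ∈ D)
    (hv : HasDerivWithinAt (fun h : ℝ => s h p) (-(ι w)) (Ioi 0) 0) :
    ARD τ (N p) (A p (z w)) := by
  unfold ARD
  have h1 : HasFDerivAt N (fderiv ℝ N p) (s 0 p) := by
    rw [H.s0]
    exact H.derN hp
  have h2 := h1.comp_hasDerivWithinAt (0 : ℝ) hv
  have e1 : fderiv ℝ N p (-(ι w)) = -(A p (z w)) := by
    rw [map_neg, H.fderivN hp]
  rw [e1] at h2
  refine h2.congr (fun h hh => ?_) ?_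
  · exact (H.hNe _ hp h (Set.mem_Ioi.1 hh).le).symm
  · change τ 0 (N p) = N (s 0 p)
    rw [H.τ0, H.s0]

theorem AHyp.rd1 (H : AHyp ι z τ σ s D N A) {p : P} {w : V} (hp : p ∈ D)
    (hv : HasDerivWithinAt (fun h : ℝ => s h p) (-(ι w)) (Ioi 0) 0) {g g' : X}
    (hg : ARD τ g g') :
    ARD τ (A p g) (A p g' + fderiv ℝ A p (ι w) g) := by
  unfold ARD at hg ⊢
  have h1 : HasFDerivAt A (fderiv ℝ A p) (s 0 p) := by
    rw [H.s0]
    exact H.derA hp
  have h2 := (h1.comp_hasDerivWithinAt (0 : ℝ) hv).clm_apply hg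
  have e1 : (fderiv ℝ A p (-(ι w))) (τ 0 g) + ((A ∘ fun h : ℝ => s h p) 0) (-g')
      = -(A p g' + fderiv ℝ A p (ι w) g) := by
    rw [H.τ0, map_neg, Function.comp_apply, H.s0, map_neg, neg_add,
      neg_apply, add_comm]
  rw [e1] at h2
  refine h2.congr (fun h hh => ?_) ?_
  · exact (H.hAe _ hp h (Set.mem_Ioi.1 hh).le g).symm
  · change τ 0 (A p g) = A (s 0 p) (τ 0 g)
    rw [H.τ0, H.s0, H.τ0]

theorem tendsto_clm {F G : Type} [NormedAddCommGroup F] [NormedSpace ℝ F]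
    [NormedAddCommGroup G] [NormedSpace ℝ G] {l : Filter ℝ} {L : ℝ → F →L[ℝ] G} {L0 : F →L[ℝ] G}
    {x : ℝ → F} {x0 : F} (h1 : Tendsto L l (𝓝 L0)) (h2 : Tendsto x l (𝓝 x0)) :
    Tendsto (fun t => L t (x t)) l (𝓝 (L0 x0)) :=
  ((isBoundedBilinearMap_apply (𝕜 := ℝ) (E := F) (F := G)).continuous.tendsto (L0, x0)).comp
    (h1.prodMk_nhds h2)

theorem AHyp.rd2 (H : AHyp ι z τ σ s D N A) {p : P} {w : V} (hp : p ∈ D)
    (hv : HasDerivWithinAt (fun h : ℝ => s h p) (-(ι w)) (Ioi 0) 0)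
    (hw : Tendsto (fun h : ℝ => σ h w) (𝓝[>] 0) (𝓝 w)) {g' : X}
    (hg : ARD τ (z w) g') :
    ARD τ (fderiv ℝ A p (ι w) (z w))
      (fderiv ℝ (fderiv ℝ A) p (ι w) (ι w) (z w)
        + (2 : ℝ) • fderiv ℝ A p (ι w) g') := by
  unfold ARD at hg ⊢
  have hT0 : HasFDerivAt (fderiv ℝ A) (fderiv ℝ (fderiv ℝ A) p) (s 0 p) := by
    rw [H.s0]
    exact H.derA' hp
  have hT := hT0.comp_hasDerivWithinAt (0 : ℝ) hv
  have hTs := (hasDerivWithinAt_iff_tendsto_slope' (by simp)).1 hT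
  have hgs := (hasDerivWithinAt_iff_tendsto_slope' (by simp)).1 hg
  have hgc : Tendsto (fun h : ℝ => τ h (z w)) (𝓝[>] 0) (𝓝 (z w)) := by
    have := hg.continuousWithinAt.tendsto
    rwa [H.τ0] at this
  set T : ℝ → (P →L[ℝ] X →L[ℝ] X) := fderiv ℝ A ∘ fun h : ℝ => s h p with hTdef
  have hT0' : T 0 = fderiv ℝ A p := by
    rw [hTdef, Function.comp_apply, H.s0]
  have hwc : Tendsto (fun h : ℝ => ι (σ h w)) (𝓝[>] 0) (𝓝 (ι w)) :=
    (ι.continuous.tendsto _).comp hw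
  have hwc2 : Tendsto (fun h : ℝ => ι (σ h w) + ι w) (𝓝[>] 0) (𝓝 (ι w + ι w)) :=
    hwc.add tendsto_const_nhds
  have lim1 := tendsto_clm (tendsto_clm hTs hwc) hgc
  have lim2 := tendsto_clm (((T 0).continuous.tendsto _).comp hwc2) hgs
  have lim := lim1.add lim2
  rw [hasDerivWithinAt_iff_tendsto_slope' (by simp)]
  have e1 : ((fderiv ℝ (fderiv ℝ A) p) (-(ι w))) (ι w) (z w) + (T 0) (ι w + ι w) (-g')
      = -(fderiv ℝ (fderiv ℝ A) p (ι w) (ι w) (z w)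
        + (2 : ℝ) • fderiv ℝ A p (ι w) g') := by
    rw [hT0', map_neg, map_add, two_smul]
    simp only [neg_apply, ContinuousLinearMap.add_apply, map_neg]
    abel
  rw [e1] at lim
  refine lim.congr' ?_
  filter_upwards [self_mem_nhdsWithin] with h hh
  have hh0 : 0 ≤ h := (Set.mem_Ioi.1 hh).le
  have f1 : τ h (fderiv ℝ A p (ι w) (z w)) = T h (ι (σ h w)) (τ h (z w)) := by
    rw [hTdef]
    exact (H.equivA' hp hh0 w (z w)).symm
  have f2 : τ 0 (fderiv ℝ A p (ι w) (z w)) = T 0 (ι w) (z w) := by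
    rw [H.τ0, hT0']
  have f3 : T 0 (ι (σ h w)) (z w) = T 0 (ι w) (τ h (z w)) := by
    rw [hT0', ← H.zσ]
    exact H.symm hp _ _
  rw [slope_def_module, slope_def_module, slope_def_module, f1, f2, H.τ0]
  simp only [Function.comp_apply]
  simp only [ContinuousLinearMap.smul_apply, ContinuousLinearMap.sub_apply, map_add, map_sub,
    map_smul, ContinuousLinearMap.add_apply, smul_sub, smul_add]
  rw [f3]
  abel

theorem ARD.add {f f' g g' : X} (hf : ARD τ f f') (hg : ARD τ g g') :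
    ARD τ (f + g) (f' + g') := by
  unfold ARD at *
  have h := HasDerivWithinAt.add hf hg
  rw [neg_add]
  refine h.congr (fun t _ => ?_) ?_
  · simp
  · simp

end

end Pool.Agent.W544.UniLift

namespace Pool.Agent.W544.UniLift

section

variable {P V X Q : Type} [NormedAddCommGroup P] [NormedSpace ℝ P]
    [NormedAddCommGroup V] [NormedSpace ℝ V] [NormedAddCommGroup X]
    [NormedSpace ℝ X] [NormedAddCommGroup Q] [NormedSpace ℝ Q]
    {ι : V →L[ℝ] P} {z : V →L[ℝ] X} {τ : ℝ → X →L[ℝ] X} {σ : ℝ → V →L[ℝ] V}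
    {s : ℝ → P →L[ℝ] P} {D : Set P} {N : P → X} {A : P → (X →L[ℝ] X)}

/-- the components of the lifted map -/
noncomputable def comps (ι : V →L[ℝ] P) (N : P → X) (A : P → (X →L[ℝ] X)) (q : Q →L[ℝ] P)
    (w : Q →L[ℝ] V) (c1 c2 c3 : Q →L[ℝ] X) (p : Q) : Fin 4 → X :=
  ![N (q p), A (q p) (c1 p), A (q p) (c2 p) + fderiv ℝ A (q p) (ι (w p)) (c1 p),
    A (q p) (c3 p) + fderiv ℝ A (q p) (ι (w p)) (c2 p) +
      (fderiv ℝ (fderiv ℝ A) (q p) (ι (w p)) (ι (w p)) (c1 p) +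
        (2 : ℝ) • fderiv ℝ A (q p) (ι (w p)) (c2 p))]

theorem AHyp.comps_rd (H : AHyp ι z τ σ s D N A) (q : Q →L[ℝ] P)
    (w : Q →L[ℝ] V) (c1 c2 c3 : Q →L[ℝ] X) (p : Q) (hq : q p ∈ D)
    (hv : HasDerivWithinAt (fun h : ℝ => s h (q p)) (-(ι (w p))) (Ioi 0) 0)
    (hw : Tendsto (fun h : ℝ => σ h (w p)) (𝓝[>] 0) (𝓝 (w p)))
    (hz : z (w p) = c1 p) (h1 : ARD τ (c1 p) (c2 p)) (h2 : ARD τ (c2 p) (c3 p)) (i : Fin 3) :
    ARD τ (comps ι N A q w c1 c2 c3 p i.castSucc) (comps ι N A q w c1 c2 c3 p i.succ) := by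
  fin_cases i
  · have := H.rd0 hq hv
    rw [hz] at this
    exact this
  · exact H.rd1 hq hv h1
  · have a1 := H.rd1 hq hv h2
    have h1' : ARD τ (z (w p)) (c2 p) := by
      rw [hz]
      exact h1
    have a2 := H.rd2 hq hv hw h1'
    rw [hz] at a2
    exact a1.add a2

theorem AHyp.comps_smooth (H : AHyp ι z τ σ s D N A) (q : Q →L[ℝ] P)
    (w : Q →L[ℝ] V) (c1 c2 c3 : Q →L[ℝ] X) (D3 : Set Q) (hq : ∀ p ∈ D3, q p ∈ D) :
    ContDiffOn ℝ ∞ (comps ι N A q w c1 c2 c3) D3 := by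
  have hN : ContDiffOn ℝ ∞ (fun p => N (q p)) D3 :=
    H.hN.comp q.contDiff.contDiffOn hq
  have hA : ContDiffOn ℝ ∞ (fun p => A (q p)) D3 :=
    H.hA.comp q.contDiff.contDiffOn hq
  have hA' : ContDiffOn ℝ ∞ (fun p => fderiv ℝ A (q p)) D3 :=
    H.contA'.comp q.contDiff.contDiffOn hq
  have hA'' : ContDiffOn ℝ ∞ (fun p => fderiv ℝ (fderiv ℝ A) (q p)) D3 :=
    H.contA''.comp q.contDiff.contDiffOn hq
  have hw : ContDiffOn ℝ ∞ (fun p => ι (w p)) D3 := (ι.comp w).contDiff.contDiffOn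
  have hB : ContDiffOn ℝ ∞ (fun p => fderiv ℝ A (q p) (ι (w p))) D3 := hA'.clm_apply hw
  have hC : ContDiffOn ℝ ∞ (fun p => fderiv ℝ (fderiv ℝ A) (q p) (ι (w p)) (ι (w p))) D3 :=
    (hA''.clm_apply hw).clm_apply hw
  have k1 := c1.contDiff (n := ∞) |>.contDiffOn (s := D3)
  have k2 := c2.contDiff (n := ∞) |>.contDiffOn (s := D3)
  have k3 := c3.contDiff (n := ∞) |>.contDiffOn (s := D3)
  rw [contDiffOn_pi]
  intro i
  fin_cases i
  · exact hN
  · exact hA.clm_apply k1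
  · exact (hA.clm_apply k2).add (hB.clm_apply k1)
  · exact ((hA.clm_apply k3).add (hB.clm_apply k2)).add
      ((hC.clm_apply k1).add (contDiffOn_const.smul (hB.clm_apply k2)))

end

end Pool.Agent.W544.UniLift
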