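import Mathlib

/-!
# Smooth maps into a complete subspace
-/

set_option autoImplicit false

open scoped ContDiff Topology
open Filter Set

namespace Pool.Agent.W544.UniLift

theorem hasFDerivAt_iso {G V W : Type} [NormedAddCommGroup G] [NormedSpace ℝ G]
    [NormedAddCommGroup V] [NormedSpace ℝ V]
    [NormedAddCommGroup W] [NormedSpace ℝ W] [CompleteSpace W] (L : W →ₗᵢ[ℝ] V)
    (f : G → W) (x : G) (D : G →L[ℝ] V) (h : HasFDerivAt (fun y => L (f y)) D x) :
    ∃ D' : G →L[ℝ] W, HasFDerivAt f D' x ∧ L.toContinuousLinearMap.comp D' = D := by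
  have hcl : IsClosed (Set.range L) := L.isometry.isClosedEmbedding.isClosed_range
  have hmem : ∀ g : G, D g ∈ LinearMap.range L.toLinearMap := by
    intro g
    have h1 : HasDerivAt (fun t : ℝ => L (f (x + t • g))) (D g) 0 := by
      have h2 : HasDerivAt (fun t : ℝ => x + t • g) g 0 := by
        simpa using ((hasDerivAt_id (0 : ℝ)).smul_const g).const_add x
      have h3 : HasFDerivAt (fun y => L (f y)) D (x + (0 : ℝ) • g) := by simpa using h
      exact h3.comp_hasDerivAt (0 : ℝ) h2
    have h4 := hasDerivAt_iff_tendsto_slope.1 h1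
    have h5 : D g ∈ Set.range L := by
      refine hcl.mem_of_tendsto h4 (Eventually.of_forall fun t => ?_)
      refine ⟨(t - 0)⁻¹ • (f (x + t • g) - f (x + (0 : ℝ) • g)), ?_⟩
      rw [L.map_smul, L.map_sub]
      rfl
    obtain ⟨w, hw⟩ := h5
    exact ⟨w, hw⟩
  let D' : G →L[ℝ] W := (L.equivRange.symm : _ →L[ℝ] W).comp
    (D.codRestrict (LinearMap.range L.toLinearMap) hmem)
  have hD' : ∀ g, L (D' g) = D g := by
    intro g
    have h1 : L.equivRange (D' g) = ⟨D g, hmem g⟩ := by
      change L.equivRange (L.equivRange.symm _) = _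
      rw [LinearIsometryEquiv.apply_symm_apply]
      rfl
    exact congrArg Subtype.val h1
  refine ⟨D', ?_, ?_⟩
  · rw [hasFDerivAt_iff_isLittleO] at h ⊢
    refine Asymptotics.IsLittleO.of_norm_left ?_
    refine h.norm_left.congr_left fun y => ?_
    rw [← L.norm_map (f y - f x - D' (y - x)), L.map_sub, L.map_sub, hD']
  · ext g
    exact hD' g

/-- composition with a linear isometry as a linear isometry -/
noncomputable def compIso {G V W : Type} [NormedAddCommGroup G] [NormedSpace ℝ G]
    [NormedAddCommGroup V] [NormedSpace ℝ V]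
    [NormedAddCommGroup W] [NormedSpace ℝ W] (L : W →ₗᵢ[ℝ] V) :
    (G →L[ℝ] W) →ₗᵢ[ℝ] (G →L[ℝ] V) where
  toFun D := L.toContinuousLinearMap.comp D
  map_add' a b := by
    ext g
    simp
  map_smul' r a := by
    ext g
    simp
  norm_map' D := by
    exact L.norm_toContinuousLinearMap_comp

theorem contDiffOn_iso_nat (n : ℕ) : ∀ {G V W : Type} [NormedAddCommGroup G] [NormedSpace ℝ G]
    [NormedAddCommGroup V] [NormedSpace ℝ V]
    [NormedAddCommGroup W] [NormedSpace ℝ W] [CompleteSpace W] (L : W →ₗᵢ[ℝ] V)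
    (f : G → W) (U : Set G), IsOpen U → ContDiffOn ℝ n (fun y => L (f y)) U →
    ContDiffOn ℝ n f U := by
  induction n with
  | zero =>
    intro G V W _ _ _ _ _ _ _ L f U hU h
    have h0 : ContinuousOn (fun y => L (f y)) U := h.continuousOn
    have h1 : ContinuousOn f U := (L.isometry.isEmbedding.isInducing.continuousOn_iff).2 h0
    exact_mod_cast (contDiffOn_zero.2 h1)
  | succ n ih =>
    intro G V W _ _ _ _ _ _ _ L f U hU h
    have e : ((n + 1 : ℕ) : WithTop ℕ∞) = (n : WithTop ℕ∞) + 1 := by norm_cast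
    rw [e] at h ⊢
    rw [contDiffOn_succ_iff_fderiv_of_isOpen hU] at h ⊢
    obtain ⟨hd, _, hc⟩ := h
    have key : ∀ x ∈ U, HasFDerivAt f (fderiv ℝ f x) x ∧
        L.toContinuousLinearMap.comp (fderiv ℝ f x) = fderiv ℝ (fun y => L (f y)) x := by
      intro x hx
      have hx1 : HasFDerivAt (fun y => L (f y)) (fderiv ℝ (fun y => L (f y)) x) x :=
        ((hd x hx).differentiableAt (hU.mem_nhds hx)).hasFDerivAt
      obtain ⟨D', h1, h2⟩ := hasFDerivAt_iso L f x _ hx1
      rw [h1.fderiv]
      exact ⟨h1, h2⟩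
    refine ⟨fun x hx => (key x hx).1.differentiableAt.differentiableWithinAt, ?_, ?_⟩
    · intro h
      exact absurd h (by simp)
    · refine ih (compIso (G := G) L) (fderiv ℝ f) U hU ?_
      refine hc.congr fun x hx => ?_
      exact (key x hx).2

theorem contDiffOn_iso {G V W : Type} [NormedAddCommGroup G] [NormedSpace ℝ G]
    [NormedAddCommGroup V] [NormedSpace ℝ V]
    [NormedAddCommGroup W] [NormedSpace ℝ W] [CompleteSpace W] (L : W →ₗᵢ[ℝ] V)
    (f : G → W) (U : Set G) (hU : IsOpen U) (h : ContDiffOn ℝ ∞ (fun y => L (f y)) U) :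
    ContDiffOn ℝ ∞ f U := by
  rw [contDiffOn_infty] at h ⊢
  intro n
  exact contDiffOn_iso_nat n L f U hU (h n)

end Pool.Agent.W544.UniLift
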