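import Pool.Agent.W668.Uni.Stmts
import Pool.Agent.W544.Uni.Iso

/-!
# The dilation semigroup and right derivatives
-/

set_option autoImplicit false

open scoped ContDiff Topology
open Filter Set MeasureTheory

namespace Pool.Agent.W544.UniLift

open Pool.Agent.W668.Uni

theorem hasDerivWithinAt_sub {V : Type} [NormedAddCommGroup V] [NormedSpace ℝ V]
    (S : Submodule ℝ V) (f : ℝ → S) (f' : S) (s : Set ℝ) (x : ℝ)
    (h : HasDerivWithinAt (fun t => (f t : V)) (f' : V) s x) : HasDerivWithinAt f f' s x := by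
  rw [hasDerivWithinAt_iff_isLittleO] at h ⊢
  refine Asymptotics.IsLittleO.of_norm_left ?_
  exact h.norm_left

theorem evX_of_mem (f : X) (x : ℝ) (h : x ∈ Set.Icc (0 : ℝ) 1) : evX f x = f ⟨x, h⟩ := by
  unfold evX
  rw [Set.projIcc_of_mem zero_le_one h]

theorem exp_mem {a x : ℝ} (ha : 0 ≤ a) (hx : x ∈ Set.Icc (0 : ℝ) 1) :
    Real.exp (-a) * x ∈ Set.Icc (0 : ℝ) 1 := by
  have h1 : Real.exp (-a) ≤ 1 := Real.exp_le_one_iff.2 (by linarith)
  refine ⟨mul_nonneg (Real.exp_pos _).le hx.1, ?_⟩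
  calc Real.exp (-a) * x ≤ 1 * 1 := mul_le_mul h1 hx.2 hx.1 zero_le_one
    _ = 1 := one_mul 1

theorem tauX_apply (a : ℝ) (f : X) (x : I1) : τX a f x = f (dil a x) := rfl

theorem evX_tauX {a : ℝ} (ha : 0 ≤ a) (f : X) {x : ℝ} (hx : x ∈ Set.Icc (0 : ℝ) 1) :
    evX (τX a f) x = evX f (Real.exp (-a) * x) := by
  rw [evX_of_mem _ _ hx, evX_of_mem _ _ (exp_mem ha hx), tauX_apply]
  congr 1
  apply Subtype.ext
  change Real.exp (-|a|) * x = Real.exp (-a) * x
  rw [abs_of_nonneg ha]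

theorem tauX_zero (f : X) : τX 0 f = f := by
  ext x
  rw [tauX_apply]
  congr 1
  apply Subtype.ext
  change Real.exp (-|(0 : ℝ)|) * (x : ℝ) = x
  simp

theorem norm_tauX_le (a : ℝ) (f : X) : ‖τX a f‖ ≤ ‖f‖ := by
  refine (ContinuousMap.norm_le _ (norm_nonneg _)).2 fun z => ?_
  exact ContinuousMap.norm_coe_le_norm f (dil a z)

theorem continuous_tauX (f : X) : Continuous (fun a : ℝ => τX a f) := by
  refine ContinuousMap.continuous_of_continuous_uncurry _ ?_
  change Continuous (fun p : ℝ × I1 => f (dil p.1 p.2))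
  refine f.continuous.comp ?_
  refine Continuous.subtype_mk ?_ _
  fun_prop

/-- `RD f f'`: the curve `h ↦ τX h f` has right derivative `-f'` at `0`. -/
def RD (f f' : X) : Prop := HasDerivWithinAt (fun h : ℝ => τX h f) (-f') (Ioi 0) 0

/-- the point evaluation as a continuous linear map -/
noncomputable def evL (x : ℝ) : X →L[ℝ] ℝ :=
  ContinuousMap.evalCLM ℝ (Set.projIcc (0 : ℝ) 1 zero_le_one x)

theorem evL_apply (x : ℝ) (f : X) : evL x f = evX f x := rfl

theorem RD.integral {f f' : X} (h : RD f f') (a : ℝ) (ha : 0 ≤ a) (x : ℝ) (hx0 : 0 ≤ x)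
    (hx1 : x ≤ 1) : evX f x - evX f (Real.exp (-a) * x)
      = ∫ s in (0 : ℝ)..a, evX f' (Real.exp (-s) * x) := by
  have hx : x ∈ Set.Icc (0 : ℝ) 1 := ⟨hx0, hx1⟩
  have hc : ∀ g : X, Continuous (fun s : ℝ => evX g (Real.exp (-s) * x)) := by
    intro g
    exact (continuous_evX g).comp (by fun_prop)
  have hder : ∀ s ∈ Ioo (0 : ℝ) a, HasDerivWithinAt
      (fun s : ℝ => - evX f (Real.exp (-s) * x)) (evX f' (Real.exp (-s) * x)) (Ioi s) s := by
    intro s hs
    have hy : Real.exp (-s) * x ∈ Set.Icc (0 : ℝ) 1 := exp_mem hs.1.le hx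
    set y := Real.exp (-s) * x with hydef
    have h1 : HasDerivWithinAt (fun h : ℝ => evX (τX h f) y) (-(evX f' y)) (Ioi 0) 0 := by
      have h2 := (evL y).hasFDerivAt.comp_hasDerivWithinAt (0 : ℝ) h
      have h3 : evL y (-f') = -(evX f' y) := by
        rw [map_neg, evL_apply]
      rw [h3] at h2
      exact h2
    have h4 : HasDerivWithinAt (fun t : ℝ => evX (τX (t - s) f) y) (-(evX f' y)) (Ioi s) s := by
      have h5 : HasDerivWithinAt (fun h : ℝ => evX (τX h f) y) (-(evX f' y)) (Ioi 0) (s - s) := by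
        rw [sub_self]
        exact h1
      have h6 : HasDerivWithinAt (fun t : ℝ => t - s) 1 (Ioi s) s :=
        ((hasDerivAt_id s).sub_const s).hasDerivWithinAt
      have h6' : MapsTo (fun t : ℝ => t - s) (Ioi s) (Ioi 0) := by
        intro t ht
        exact Set.mem_Ioi.2 (sub_pos.2 (Set.mem_Ioi.1 ht))
      have h7 := h5.scomp (h := fun t : ℝ => t - s) s h6 h6'
      rw [one_smul] at h7
      exact h7
    have h8 := h4.neg
    rw [neg_neg] at h8
    refine h8.congr (fun t ht => ?_) ?_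
    · have ht' : 0 ≤ t - s := (sub_pos.2 ht).le
      change - evX f (Real.exp (-t) * x) = - evX (τX (t - s) f) y
      rw [evX_tauX ht' f hy, hydef, ← mul_assoc, ← Real.exp_add]
      congr 4
      ring
    · change - evX f (Real.exp (-s) * x) = - evX (τX (s - s) f) y
      rw [sub_self, tauX_zero]
  have := intervalIntegral.integral_eq_sub_of_hasDeriv_right_of_le ha
    ((hc f).neg.continuousOn) hder ((hc f').intervalIntegrable _ _)
  rw [this]
  simp
  ring

theorem RD.of_integral {f f' : X} (h : ∀ a : ℝ, 0 ≤ a → ∀ x : ℝ, 0 ≤ x → x ≤ 1 →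
    evX f x - evX f (Real.exp (-a) * x)
      = ∫ s in (0 : ℝ)..a, evX f' (Real.exp (-s) * x)) : RD f f' := by
  unfold RD
  rw [hasDerivWithinAt_iff_isLittleO, Asymptotics.isLittleO_iff]
  intro ε hε
  have hcont : Tendsto (fun a : ℝ => τX a f') (𝓝 0) (𝓝 f') := by
    have := (continuous_tauX f').tendsto 0
    rwa [tauX_zero] at this
  obtain ⟨δ, hδ, hδ'⟩ := Metric.tendsto_nhds_nhds.1 hcont ε hε
  have hmem : Ioo (0 : ℝ) δ ∈ 𝓝[>] (0 : ℝ) := Ioo_mem_nhdsGT hδ
  filter_upwards [hmem] with t ht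
  rw [tauX_zero, sub_zero, Real.norm_of_nonneg ht.1.le]
  refine (ContinuousMap.norm_le _ (mul_nonneg hε.le ht.1.le)).2 fun z => ?_
  have hz := z.2
  have e1 : (τX t f - f - t • (-f')) z = ∫ s in (0 : ℝ)..t,
      (evX f' z - evX f' (Real.exp (-s) * z)) := by
    have h2 := h t ht.1.le z hz.1 hz.2
    have c1 : Continuous (fun s : ℝ => evX f' (Real.exp (-s) * z)) :=
      (continuous_evX f').comp (by fun_prop)
    rw [intervalIntegral.integral_sub (continuous_const.intervalIntegrable _ _)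
      (c1.intervalIntegrable _ _), ← h2, intervalIntegral.integral_const]
    have e2 : (τX t f - f - t • (-f')) z = τX t f z - f z + t * f' z := by
      simp
    have e3 : τX t f z = evX f (Real.exp (-t) * z) := by
      rw [← evX_tauX ht.1.le f hz, evX_of_mem _ _ hz]
    rw [e2, e3, evX_of_mem _ _ hz, evX_of_mem _ _ hz]
    simp
    ring
  rw [e1]
  have h3 := intervalIntegral.norm_integral_le_of_norm_le_const (a := (0 : ℝ)) (b := t) (C := ε)
    (f := fun s : ℝ => evX f' z - evX f' (Real.exp (-s) * z)) (fun s hs => ?_)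
  · simpa [abs_of_pos ht.1] using h3
  · rw [uIoc_of_le ht.1.le] at hs
    have h4 : dist (τX s f') f' < ε := by
      refine hδ' ?_
      rw [Real.dist_eq, sub_zero, abs_of_pos hs.1]
      exact lt_of_le_of_lt hs.2 ht.2
    have h5 : evX f' (Real.exp (-s) * z) = τX s f' z := by
      rw [← evX_tauX hs.1.le f' hz, evX_of_mem _ _ hz]
    rw [h5, evX_of_mem _ _ hz]
    have h6 : ‖(f' - τX s f') z‖ ≤ ‖f' - τX s f'‖ := ContinuousMap.norm_coe_le_norm _ _
    have h7 : ‖f' - τX s f'‖ < ε := by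
      rw [← dist_eq_norm, dist_comm]
      exact h4
    exact h6.trans h7.le

/-! ### The spaces `E k` -/

/-- zeroth component as a continuous linear map -/
noncomputable def cmpL (k : ℕ) (i : Fin (k + 1)) : E k →L[ℝ] X :=
  (ContinuousLinearMap.proj i).comp (E k).subtypeL

theorem cmpL_apply (k : ℕ) (i : Fin (k + 1)) (u : E k) :
    cmpL k i u = (u : Fin (k + 1) → X) i := rfl

theorem RD_of_mem {k : ℕ} (u : E k) (i : Fin k) :
    RD ((u : Fin (k + 1) → X) i.castSucc) ((u : Fin (k + 1) → X) i.succ) :=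
  RD.of_integral (u.2 i)

theorem tauE_zero (EM : EMaps) {k : ℕ} (u : E k) : EM.τE k 0 u = u := by
  apply Subtype.ext
  funext i
  rw [EM.τE_ev, tauX_zero]

theorem z0_tauE (EM : EMaps) {k : ℕ} (a : ℝ) (u : E k) : z0 (EM.τE k a u) = τX a (z0 u) := by
  unfold z0
  rw [EM.τE_ev]

theorem continuous_tauE (EM : EMaps) {k : ℕ} (u : E k) :
    Continuous (fun a : ℝ => EM.τE k a u) := by
  refine Continuous.subtype_mk (p := fun v => v ∈ E k) (f := fun a : ℝ => (EM.τE k a u : Fin (k + 1) → X)) ?_ ?_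
  refine continuous_pi fun i => ?_
  have : (fun a : ℝ => (EM.τE k a u : Fin (k + 1) → X) i)
      = fun a => τX a ((u : Fin (k + 1) → X) i) := by
    funext a
    rw [EM.τE_ev]
  rw [this]
  exact continuous_tauX _

theorem hasDerivWithinAt_tauE (EM : EMaps) {k : ℕ} (u : E (k + 1)) :
    HasDerivWithinAt (fun h : ℝ => EM.τE k h (EM.drop k u)) (-(EM.sh k u)) (Ioi 0) 0 := by
  have h1 : HasDerivWithinAt (fun h : ℝ => (EM.τE k h (EM.drop k u) : Fin (k + 1) → X))
      (-(EM.sh k u : Fin (k + 1) → X)) (Ioi 0) 0 := by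
    rw [hasDerivWithinAt_pi]
    intro i
    have h2 := RD_of_mem u i
    unfold RD at h2
    have e1 : (-(EM.sh k u : Fin (k + 1) → X)) i = -((u : Fin (k + 2) → X) i.succ) := by
      rw [Pi.neg_apply, EM.sh_ev]
    rw [e1]
    have e2 : (fun h : ℝ => (EM.τE k h (EM.drop k u) : Fin (k + 1) → X) i)
        = fun h => τX h ((u : Fin (k + 2) → X) i.castSucc) := by
      funext h
      rw [EM.τE_ev, EM.drop_ev]
    rw [e2]
    exact h2
  exact hasDerivWithinAt_sub (E k) _ _ _ _ h1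

end Pool.Agent.W544.UniLift
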