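import Pool.Agent.W544.Uni.Dil
import Pool.Agent.W544.Uni.Abs

/-!
# UNI-LIFT
-/

set_option autoImplicit false
set_option maxSynthPendingDepth 3

open scoped ContDiff Topology
open Filter Set MeasureTheory

namespace Pool.Agent.W544.UniLift

open Pool.Agent.W668.Uni

theorem isOpen_domE (k : ℕ) (e₀ M : ℝ) : IsOpen (domE k e₀ M) := by
  have h1 : Continuous (fun p : ℝ × E k => |p.1|) := continuous_abs.comp continuous_fst
  have h2 : Continuous (fun p : ℝ × E k => ‖z0 p.2‖) :=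
    ((cmpL k 0).continuous.comp continuous_snd).norm
  exact (isOpen_lt h1 continuous_const).inter (isOpen_lt h2 continuous_const)

theorem z0_tauE_norm (EM : EMaps) (a : ℝ) (v : E 2) : ‖z0 (EM.τE 2 a v)‖ ≤ ‖z0 v‖ := by
  rw [z0_tauE]
  exact norm_tauX_le _ _

theorem tauE_mem (EM : EMaps) {e₀ M : ℝ} {p : ℝ × E 2} (hp : p ∈ domE 2 e₀ M) (a : ℝ) :
    ((p.1, EM.τE 2 a p.2) : ℝ × E 2) ∈ domE 2 e₀ M :=
  ⟨hp.1, lt_of_le_of_lt (z0_tauE_norm EM a p.2) hp.2⟩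

/-- the action on the base -/
noncomputable def sB (EM : EMaps) (a : ℝ) : (ℝ × E 2) →L[ℝ] (ℝ × E 2) :=
  (ContinuousLinearMap.fst ℝ ℝ (E 2)).prod ((EM.τE 2 a).comp (ContinuousLinearMap.snd ℝ ℝ (E 2)))

theorem mkH (EM : EMaps) (e₀ M : ℝ) (N : ℝ × E 2 → X)
    (A : ℝ × E 2 → (X →L[ℝ] X))
    (hN : ContDiffOn ℝ ∞ N (domE 2 e₀ M)) (hA : ContDiffOn ℝ ∞ A (domE 2 e₀ M))
    (hd : ∀ p ∈ domE 2 e₀ M, ∀ g : E 2,
      HasDerivAt (fun s : ℝ => N (p.1, p.2 + s • g)) (A p (z0 g)) 0)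
    (hNe : ∀ p ∈ domE 2 e₀ M, ∀ a : ℝ, 0 ≤ a → N (p.1, EM.τE 2 a p.2) = τX a (N p))
    (hAe : ∀ p ∈ domE 2 e₀ M, ∀ a : ℝ, 0 ≤ a → ∀ g : X,
      A (p.1, EM.τE 2 a p.2) (τX a g) = τX a (A p g)) :
    AHyp (ContinuousLinearMap.inr ℝ ℝ (E 2)) (cmpL 2 0) τX (EM.τE 2) (sB EM) (domE 2 e₀ M)
      N A where
  isOpen := isOpen_domE 2 e₀ M
  maps := fun p hp a _ => tauE_mem EM hp a
  τ0 := tauX_zero
  s0 := by
    intro p
    change (p.1, EM.τE 2 0 p.2) = p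
    rw [tauE_zero]
  sι := by
    intro a v
    change ((0 : ℝ), EM.τE 2 a v) = ((0 : ℝ), EM.τE 2 a v)
    rfl
  zσ := fun a v => z0_tauE EM a v
  hN := hN
  hA := hA
  hd := by
    intro p hp g
    have h1 := hd p hp g
    have h2 : (fun t : ℝ => N (p + t • (ContinuousLinearMap.inr ℝ ℝ (E 2)) g))
        = fun t : ℝ => N (p.1, p.2 + t • g) := by
      funext t
      congr 1
      apply Prod.ext
      · simp
      · simp
    rw [h2]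
    exact h1
  hNe := hNe
  hAe := hAe

/-- `(ε,u) ↦ (ε, drop u)` -/
noncomputable def qL (EM : EMaps) : (ℝ × E 3) →L[ℝ] (ℝ × E 2) :=
  (ContinuousLinearMap.fst ℝ ℝ (E 3)).prod ((EM.drop 2).comp (ContinuousLinearMap.snd ℝ ℝ (E 3)))

/-- `(ε,u) ↦ sh u` -/
noncomputable def wL (EM : EMaps) : (ℝ × E 3) →L[ℝ] E 2 :=
  (EM.sh 2).comp (ContinuousLinearMap.snd ℝ ℝ (E 3))

/-- `(ε,u) ↦ u_i` -/
noncomputable def cL (i : Fin 4) : (ℝ × E 3) →L[ℝ] X :=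
  (cmpL 3 i).comp (ContinuousLinearMap.snd ℝ ℝ (E 3))

theorem q_mem (EM : EMaps) {e₀ M : ℝ} {p : ℝ × E 3} (hp : p ∈ domE 3 e₀ M) :
    qL EM p ∈ domE 2 e₀ M := by
  refine ⟨hp.1, ?_⟩
  have h1 : z0 (EM.drop 2 p.2) = z0 p.2 := by
    unfold z0
    rw [EM.drop_ev]
    rfl
  change ‖z0 (EM.drop 2 p.2)‖ < M
  rw [h1]
  exact hp.2

theorem base_hasDeriv (EM : EMaps) (p : ℝ × E 3) :
    HasDerivWithinAt (fun h : ℝ => sB EM h (qL EM p))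
      (-(ContinuousLinearMap.inr ℝ ℝ (E 2) (wL EM p))) (Ioi 0) 0 := by
  have h1 := hasDerivWithinAt_tauE EM (k := 2) p.2
  have h2 : HasDerivWithinAt (fun h : ℝ => ((p.1, EM.τE 2 h (EM.drop 2 p.2)) : ℝ × E 2))
      ((0 : ℝ), -(EM.sh 2 p.2)) (Ioi 0) 0 :=
    (hasDerivWithinAt_const (0 : ℝ) (Ioi 0) p.1).prodMk h1
  have e1 : -(ContinuousLinearMap.inr ℝ ℝ (E 2) (wL EM p)) = ((0 : ℝ), -(EM.sh 2 p.2)) := by
    apply Prod.ext
    · simp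
    · rfl
  rw [e1]
  exact h2

theorem main : P_lift := by
  intro EM e₀ M N A hN hA hd hNe hAe
  have H := mkH EM e₀ M N A hN hA hd hNe hAe
  have hmem : ∀ p ∈ domE 3 e₀ M,
      comps (ContinuousLinearMap.inr ℝ ℝ (E 2)) N A (qL EM) (wL EM) (cL 1) (cL 2) (cL 3) p
        ∈ E 3 := by
    intro p hp i a ha x hx0 hx1
    have hw : Tendsto (fun h : ℝ => EM.τE 2 h (wL EM p)) (𝓝[>] 0) (𝓝 (wL EM p)) := by
      have h1 := ((continuous_tauE EM (wL EM p)).tendsto 0).mono_left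
        (nhdsWithin_le_nhds (s := Ioi (0 : ℝ)))
      rwa [tauE_zero] at h1
    have hz : cmpL 2 0 (wL EM p) = cL 1 p := by
      change (EM.sh 2 p.2 : Fin 3 → X) 0 = (p.2 : Fin 4 → X) 1
      rw [EM.sh_ev]
      rfl
    have r1 : ARD τX (cL 1 p) (cL 2 p) := RD_of_mem p.2 1
    have r2 : ARD τX (cL 2 p) (cL 3 p) := RD_of_mem p.2 2
    have h3 := H.comps_rd (qL EM) (wL EM) (cL 1) (cL 2) (cL 3) p (q_mem EM hp)
      (base_hasDeriv EM p) hw hz r1 r2 i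
    exact RD.integral h3 a ha x hx0 hx1
  classical
  refine ⟨fun p => if h : p ∈ domE 3 e₀ M then ⟨_, hmem p h⟩ else 0, ?_, ?_⟩
  · have := EM.complete 3
    refine contDiffOn_iso ((E 3).subtypeₗᵢ) _ (domE 3 e₀ M) (isOpen_domE 3 e₀ M) ?_
    refine (H.comps_smooth (qL EM) (wL EM) (cL 1) (cL 2) (cL 3) (domE 3 e₀ M)
      (fun p hp => q_mem EM hp)).congr fun p hp => ?_
    rw [dif_pos hp]
    rfl
  · intro p hp
    beta_reduce
    rw [dif_pos hp]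
    rfl

end Pool.Agent.W544.UniLift
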